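import Pool.Agent.R463.PP11
import Pool.Agent.R463.One

set_option autoImplicit false

/-!
# The systems of the forms `2 ^ j (n + s) - s`, `j < k`, for `s = 1` and `s = -1`
-/

namespace Pool.Agent.R935.JL

open Polynomial Finset Filter
open Pool.Agent.R463.PS Pool.Agent.R463.PP
open Pool.Agent.H373R2.T7 (pz Vz)

/-- the coefficients -/
def ca (k : ℕ) : Fin k → ℤ := fun j => 2 ^ (j : ℕ)

/-- the constant terms -/
def cb (σ : ℤ) (k : ℕ) : Fin k → ℤ := fun j => σ * (2 ^ (j : ℕ) - 1)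

/-- the system of the forms `2 ^ j (n + σ) - σ`, `j < k` -/
noncomputable def cs (σ : ℤ) (k : ℕ) : Fin k → ℤ[X] := ls (ca k) (cb σ k)

lemma c_adm {σ : ℤ} (hσ : σ = 1 ∨ σ = -1) (k : ℕ) : AdmL (ca k) (cb σ k) := by
  refine ⟨fun j => by unfold ca; positivity, fun p hp => ?_⟩
  have h1 : ¬ (p : ℤ) ∣ 1 := fun h => by
    have : p ∣ 1 := by exact_mod_cast h
    exact hp.one_lt.ne' (Nat.dvd_one.1 this)
  rcases hσ with rfl | rfl
  · refine ⟨p - 1, fun i h => h1 ?_⟩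
    have e : ca k i * ((p - 1 : ℕ) : ℤ) + cb 1 k i = 2 ^ (i : ℕ) * (p : ℤ) - 1 := by
      unfold ca cb
      rw [Nat.cast_sub hp.one_le]
      push_cast
      ring
    rw [e] at h
    have h2 : (p : ℤ) ∣ 2 ^ (i : ℕ) * (p : ℤ) := Dvd.intro_left _ rfl
    have := dvd_sub h2 h
    rwa [sub_sub_cancel] at this
  · refine ⟨1, fun i h => h1 ?_⟩
    have e : ca k i * ((1 : ℕ) : ℤ) + cb (-1) k i = 1 := by
      unfold ca cb
      push_cast
      ring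
    rwa [e] at h

lemma c_abs {σ : ℤ} (hσ : σ = 1 ∨ σ = -1) : |(σ : ℝ)| = 1 := by
  rcases hσ with rfl | rfl <;> simp

lemma c_sys {σ : ℤ} (hσ : σ = 1 ∨ σ = -1) (k : ℕ) (H U : ℝ) (hH : (2 : ℝ) ^ k ≤ H) :
    System 1 H U (cs σ k) := by
  have hpow : ∀ i : Fin k, (2 : ℝ) ^ (i : ℕ) ≤ (2 : ℝ) ^ k := fun i =>
    pow_le_pow_right₀ (by norm_num) i.2.le
  have hpos : ∀ i : Fin k, (1 : ℝ) ≤ (2 : ℝ) ^ (i : ℕ) := fun i => one_le_pow₀ (by norm_num)
  refine lin_system (c_adm hσ k) H U (fun i => ?_) (fun i => ?_) (fun i j t ht _ h => ?_)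
  · unfold ca
    push_cast
    rw [abs_of_nonneg (by positivity)]
    exact (hpow i).trans hH
  · unfold cb
    push_cast
    rw [abs_mul, c_abs hσ, one_mul, abs_of_nonneg (by linarith [hpos i])]
    linarith [hpow i]
  · obtain ⟨h1, h2⟩ := h
    have hj := (c_adm hσ k).1 j
    unfold cb at h2
    unfold ca at h1 h2 hj
    rw [h1] at h2
    have h3 : (2 : ℤ) ^ (j : ℕ) * (t : ℤ) = 0 := by linarith
    rcases mul_eq_zero.1 h3 with h4 | h4
    · omega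
    · omega

lemma c_form (σ : ℤ) (j : ℕ) (n : ℤ) : 2 ^ j * n + σ * (2 ^ j - 1) = 2 ^ j * (n + σ) - σ := by ring

lemma c_sift (σ : ℤ) (k X r n : ℕ) : Sifted (cs σ k) X r n ↔
    ∀ p : ℕ, p.Prime → (p : ℝ) ≤ (X : ℝ) ^ (1 / (r : ℝ)) → ∀ j < k,
      ¬ (p : ℤ) ∣ 2 ^ j * ((n : ℤ) + σ) - σ := by
  unfold cs
  rw [ls_sift]
  apply forall₃_congr
  intro p _ _
  constructor
  · intro h j hj
    have := h ⟨j, hj⟩
    unfold ca cb at this
    rwa [c_form] at this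
  · intro h i
    have := h i i.2
    unfold ca cb
    rwa [c_form]

lemma c_om (σ : ℤ) (k p : ℕ) :
    om (cs σ k) p = ((range p).filter (fun n : ℕ => ∃ j < k, (p : ℤ) ∣ 2 ^ j * ((n : ℤ) + σ) - σ)).card := by
  classical
  unfold cs
  rw [ls_om]
  congr 1
  apply filter_congr
  intro n _
  constructor
  · rintro ⟨i, hi⟩
    refine ⟨i, i.2, ?_⟩
    unfold ca cb at hi
    rwa [c_form] at hi
  · rintro ⟨j, hj, h⟩
    refine ⟨⟨j, hj⟩, ?_⟩
    unfold ca cb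
    rwa [c_form]

lemma c_om_pos (σ : ℤ) {k : ℕ} (hk : 1 ≤ k) (p : ℕ) (hp : p.Prime) : 1 ≤ om (cs σ k) p :=
  om_monic (⟨0, hk⟩ : Fin k) (by unfold ca; simp) p hp

lemma c_om_mono (σ : ℤ) (k p : ℕ) : om (cs σ k) p ≤ om (cs σ (k + 1)) p := by
  classical
  rw [c_om, c_om]
  apply card_le_card
  intro n hn
  rw [mem_filter] at hn ⊢
  obtain ⟨h1, j, hj, h2⟩ := hn
  exact ⟨h1, j, by omega, h2⟩

lemma exists_root (a b : ℤ) (p : ℕ) (hp : p.Prime) (h : ¬ (p : ℤ) ∣ a) :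
    ∃ n : ℕ, n < p ∧ (p : ℤ) ∣ a * n + b := by
  have hp0 : (0 : ℤ) < p := by exact_mod_cast hp.pos
  have hpp : Prime (p : ℤ) := Nat.prime_iff_prime_int.1 hp
  obtain ⟨u, v, huv⟩ := (hpp.coprime_iff_not_dvd.2 h)
  have h1 : ((((-b * v) % p).toNat : ℕ) : ℤ) = (-b * v) % p := Int.toNat_of_nonneg (Int.emod_nonneg _ hp0.ne')
  refine ⟨((-b * v) % p).toNat, ?_, ?_⟩
  · have := Int.emod_lt_of_pos (-b * v) hp0
    omega
  · rw [h1]
    have h2 := Int.emod_add_mul_ediv (-b * v) p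
    refine ⟨b * u - a * ((-b * v) / p), ?_⟩
    have h3 : (-b * v) % p = -b * v - p * ((-b * v) / p) := by linarith
    rw [h3]
    have h4 : v * a = 1 - u * p := by linarith
    calc a * (-b * v - p * ((-b * v) / p)) + b = -b * (v * a) - a * p * ((-b * v) / p) + b := by ring
      _ = p * (b * u - a * ((-b * v) / p)) := by
        rw [h4]
        ring

/-- the last form has a new root -/
lemma c_om_succ {σ : ℤ} (hσ : σ = 1 ∨ σ = -1) (k p : ℕ) (hk1 : 1 ≤ k) (hp : p.Prime) (hk : 2 ^ k < p) :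
    om (cs σ k) p + 1 ≤ om (cs σ (k + 1)) p := by
  classical
  have hpp : Prime (p : ℤ) := Nat.prime_iff_prime_int.1 hp
  have h2 : ¬ (p : ℤ) ∣ 2 := by
    intro h
    have h1 : p ∣ 2 := by exact_mod_cast h
    have h3 := (Nat.prime_dvd_prime_iff_eq hp Nat.prime_two).1 h1
    subst h3
    have : 2 ^ 1 ≤ 2 ^ k := Nat.pow_le_pow_right (by norm_num) hk1
    omega
  have h2k : ¬ (p : ℤ) ∣ 2 ^ k := fun h => h2 (hpp.dvd_of_dvd_pow h)
  obtain ⟨x, hx, hx1⟩ := exists_root (2 ^ k) (σ * (2 ^ k - 1)) p hp h2k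
  rw [c_form] at hx1
  have hnew : ¬ ∃ j < k, (p : ℤ) ∣ 2 ^ j * ((x : ℤ) + σ) - σ := by
    rintro ⟨j, hj, h⟩
    obtain ⟨i, hi⟩ : ∃ i, k = j + i := ⟨k - j, by omega⟩
    have h3 : (p : ℤ) ∣ 2 ^ i * (2 ^ j * ((x : ℤ) + σ) - σ) - (2 ^ k * ((x : ℤ) + σ) - σ) :=
      dvd_sub (Dvd.dvd.mul_left h _) hx1
    have e : 2 ^ i * (2 ^ j * ((x : ℤ) + σ) - σ) - (2 ^ k * ((x : ℤ) + σ) - σ) = -σ * (2 ^ i - 1) := by
      rw [hi, pow_add]
      ring
    rw [e] at h3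
    have h4 : (p : ℤ) ∣ 2 ^ i - 1 := by
      rcases hσ with rfl | rfl
      · have := h3.neg_right
        rwa [neg_mul, neg_neg, one_mul] at this
      · rwa [neg_neg, one_mul] at h3
    have h5 : (0 : ℤ) < 2 ^ i - 1 := by
      have : (2 : ℤ) ^ 1 ≤ 2 ^ i := pow_le_pow_right₀ (by norm_num) (by omega)
      linarith
    have h6 := Int.le_of_dvd h5 h4
    have h7 : (2 : ℤ) ^ i ≤ 2 ^ k := pow_le_pow_right₀ (by norm_num) (by omega)
    have h8 : (2 : ℤ) ^ k < p := by exact_mod_cast hk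
    linarith
  rw [c_om, c_om]
  have hsub : insert x ((range p).filter (fun n : ℕ => ∃ j < k, (p : ℤ) ∣ 2 ^ j * ((n : ℤ) + σ) - σ)) ⊆
      (range p).filter (fun n : ℕ => ∃ j < k + 1, (p : ℤ) ∣ 2 ^ j * ((n : ℤ) + σ) - σ) := by
    intro n hn
    rw [mem_insert] at hn
    rcases hn with rfl | hn
    · rw [mem_filter, mem_range]
      exact ⟨hx, k, by omega, hx1⟩
    · rw [mem_filter] at hn ⊢
      obtain ⟨h1, j, hj, h2⟩ := hn
      exact ⟨h1, j, by omega, h2⟩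
  have h3 := card_le_card hsub
  have h4 : x ∉ (range p).filter (fun n : ℕ => ∃ j < k, (p : ℤ) ∣ 2 ^ j * ((n : ℤ) + σ) - σ) :=
    fun h => hnew (mem_filter.1 h).2
  rwa [card_insert_of_notMem h4] at h3

/-- the upper bound for the density -/
lemma c_V (σ : ℤ) {k : ℕ} (hk : 1 ≤ k) (r : ℕ) (hr : 2 ≤ r) : ∃ C : ℝ, 0 < C ∧ ∀ᶠ X : ℕ in atTop,
    V (cs σ k) X r ≤ C / Real.log X := by
  obtain ⟨C, hC, h⟩ := Vz_le r hr
  refine ⟨C, hC, ?_⟩
  filter_upwards [h] with X hX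
  exact (V_le_Vz _ X r (fun p hp => c_om_pos σ hk p hp)).trans hX

lemma c_Vnn (σ : ℤ) (k X r : ℕ) : 0 ≤ V (cs σ k) X r := by
  unfold V
  apply prod_nonneg
  intro p hp
  have hp0 : (0 : ℝ) < p := by exact_mod_cast (mem_filter.1 hp).2.pos
  rw [sub_nonneg, div_le_one hp0]
  exact_mod_cast om_le _ p

/-- the density of the longer system -/
lemma c_Vsucc {σ : ℤ} (hσ : σ = 1 ∨ σ = -1) {k : ℕ} (hk : 1 ≤ k) (r : ℕ) (hr : 2 ≤ r) :
    ∃ C : ℝ, 0 < C ∧ ∀ᶠ X : ℕ in atTop,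
      V (cs σ (k + 1)) X r ≤ C / Real.log X * V (cs σ k) X r := by
  classical
  obtain ⟨C, hC, h⟩ := Vz_le r hr
  have hVzpos : 0 < Vz (2 ^ k) := by
    unfold Vz pz
    apply prod_pos
    intro p hp
    have hp1 : (1 : ℝ) < p := by exact_mod_cast (mem_filter.1 hp).2.one_lt
    rw [sub_pos, div_lt_one (by linarith)]
    exact hp1
  have hrr : (0 : ℝ) < r := by exact_mod_cast (by omega : 0 < r)
  have hlarge : ∀ᶠ X : ℕ in atTop, ((2 ^ k : ℕ) : ℝ) ≤ (X : ℝ) ^ (1 / (r : ℝ)) :=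
    ((tendsto_rpow_atTop (by positivity)).comp tendsto_natCast_atTop_atTop).eventually_ge_atTop _
  refine ⟨C / Vz (2 ^ k), by positivity, ?_⟩
  filter_upwards [h, hlarge] with X hX hX2
  obtain ⟨y, hy⟩ : ∃ y, y = ⌊(X : ℝ) ^ (1 / (r : ℝ))⌋₊ := ⟨_, rfl⟩
  have hy2 : 2 ^ k ≤ y := by rw [hy]; exact Nat.le_floor hX2
  rw [← hy] at hX
  have h1 : V (cs σ (k + 1)) X r ≤ ∏ p ∈ pz y, (1 - (om (cs σ k) p : ℝ) / p) *
      (if 2 ^ k < p then (1 - 1 / (p : ℝ)) else 1) := by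
    unfold V pz
    rw [← hy]
    apply Finset.prod_le_prod
    · intro p hp
      have hp0 : (0 : ℝ) < p := by exact_mod_cast (mem_filter.1 hp).2.pos
      rw [sub_nonneg, div_le_one hp0]
      exact_mod_cast om_le _ p
    · intro p hp
      have hp0 : (0 : ℝ) < p := by exact_mod_cast (mem_filter.1 hp).2.pos
      split_ifs with h2
      · have h3 : ((om (cs σ k) p : ℕ) : ℝ) + 1 ≤ (om (cs σ (k + 1)) p : ℝ) := by
          exact_mod_cast c_om_succ hσ k p hk (mem_filter.1 hp).2 h2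
        have h4 : (((om (cs σ k) p : ℕ) : ℝ) + 1) / p ≤ (om (cs σ (k + 1)) p : ℝ) / p :=
          div_le_div_of_nonneg_right h3 hp0.le
        have h5 : 0 ≤ (om (cs σ k) p : ℝ) / p * (1 / p) := by positivity
        have h6 : (1 - (om (cs σ k) p : ℝ) / p) * (1 - 1 / (p : ℝ)) =
            1 - (((om (cs σ k) p : ℕ) : ℝ) + 1) / p + (om (cs σ k) p : ℝ) / p * (1 / p) := by
          field_simp
          ring
        rw [h6]
        linarith
      · have h3 : ((om (cs σ k) p : ℕ) : ℝ) ≤ (om (cs σ (k + 1)) p : ℝ) := by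
          exact_mod_cast c_om_mono σ k p
        have h4 : ((om (cs σ k) p : ℕ) : ℝ) / p ≤ (om (cs σ (k + 1)) p : ℝ) / p :=
          div_le_div_of_nonneg_right h3 hp0.le
        linarith
  rw [prod_mul_distrib] at h1
  have h2 : ∏ p ∈ pz y, (1 - (om (cs σ k) p : ℝ) / p) = V (cs σ k) X r := by
    unfold V pz
    rw [← hy]
  rw [h2] at h1
  have h3 : (∏ p ∈ pz y, (if 2 ^ k < p then (1 - 1 / (p : ℝ)) else 1)) * Vz (2 ^ k) = Vz y := by
    rw [← prod_filter]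
    have e : Vz (2 ^ k) = ∏ p ∈ (pz y).filter (fun p => ¬ 2 ^ k < p), (1 - 1 / (p : ℝ)) := by
      unfold Vz
      apply prod_congr _ (fun _ _ => rfl)
      ext p
      unfold pz
      simp only [mem_filter, mem_Icc]
      constructor
      · rintro ⟨⟨h1, h2⟩, h3⟩
        exact ⟨⟨⟨h1, by omega⟩, h3⟩, by omega⟩
      · rintro ⟨⟨⟨h1, _⟩, h3⟩, h4⟩
        exact ⟨⟨h1, by omega⟩, h3⟩
    rw [e, prod_filter_mul_prod_filter_not]
    rfl
  have h4 : (∏ p ∈ pz y, (if 2 ^ k < p then (1 - 1 / (p : ℝ)) else 1)) ≤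
      C / Vz (2 ^ k) / Real.log X := by
    rw [div_right_comm, le_div_iff₀ hVzpos, h3]
    exact hX
  calc V (cs σ (k + 1)) X r ≤ V (cs σ k) X r * _ := h1
    _ ≤ V (cs σ k) X r * (C / Vz (2 ^ k) / Real.log X) :=
      mul_le_mul_of_nonneg_left h4 (c_Vnn σ k X r)
    _ = _ := mul_comm _ _

lemma c_sub {σ : ℤ} {k X r n : ℕ} (h : Sifted (cs σ (k + 1)) X r n) : Sifted (cs σ k) X r n := by
  rw [c_sift] at h ⊢
  intro p hp hpX j hj
  exact h p hp hpX j (by omega)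

lemma c_eval (σ : ℤ) (k : ℕ) (i : Fin k) (x : ℤ) :
    (cs σ k i).eval x = 2 ^ (i : ℕ) * (x + σ) - σ := by
  have h : cs σ k i = C (ca k i) * X + C (cb σ k i) := rfl
  rw [h, eval_add, eval_mul, eval_C, eval_X, eval_C]
  unfold ca cb
  ring

lemma c_Cl (σ : ℤ) (k q : ℕ) (hq : 1 ≤ q) : Cl (cs σ k) q =
    (range q).filter (fun a : ℕ => ∀ p ∈ q.primeFactors, ∀ j < k, ¬ (p : ℤ) ∣ 2 ^ j * ((a : ℤ) + σ) - σ) := by
  classical
  unfold Cl
  apply filter_congr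
  intro a _
  constructor
  · intro h p hp j hj hd
    apply h p (Nat.prime_of_mem_primeFactors hp) (Nat.dvd_of_mem_primeFactors hp) ⟨j, hj⟩
    rw [c_eval]
    exact hd
  · intro h p hp hpq i hd
    rw [c_eval] at hd
    exact h p (Nat.mem_primeFactors.2 ⟨hp, hpq, by omega⟩) i i.2 hd

/-- few prime factors -/
lemma rough_few (x : ℝ) (hx : 1 < x) (N m : ℕ) (hN : N ≠ 0) (hNx : (N : ℝ) ≤ x ^ m)
    (hr : ∀ q : ℕ, q.Prime → (q : ℝ) ≤ x → ¬ q ∣ N) : N.primeFactorsList.length ≤ m := by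
  have h1 : ∀ l : List ℕ, (∀ q ∈ l, x < (q : ℝ)) → x ^ l.length ≤ ((l.prod : ℕ) : ℝ) := by
    intro l
    induction l with
    | nil => intro _; simp
    | cons a l ih =>
      intro hl
      rw [List.length_cons, List.prod_cons, pow_succ, Nat.cast_mul]
      have h2 : x < (a : ℝ) := hl a List.mem_cons_self
      have h3 := ih (fun q hq => hl q (List.mem_cons_of_mem a hq))
      rw [mul_comm (x ^ l.length)]
      exact mul_le_mul h2.le h3 (by positivity) (by linarith)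
  have h2 := h1 N.primeFactorsList (fun q hq => by
    by_contra hcon
    push Not at hcon
    exact hr q (Nat.prime_of_mem_primeFactorsList hq) hcon (Nat.dvd_of_mem_primeFactorsList hq))
  rw [Nat.prod_primeFactorsList hN] at h2
  exact (pow_le_pow_iff_right₀ hx).1 (h2.trans hNx)

lemma few_of_le {X r N c : ℕ} (hr : 1 ≤ r) (hc : ((c : ℕ) : ℝ) ≤ (X : ℝ) ^ (1 / (r : ℝ)))
    (h1 : 1 < (X : ℝ) ^ (1 / (r : ℝ))) (hN : N ≠ 0) (hNX : N ≤ c * X)
    (h : ∀ p : ℕ, p.Prime → (p : ℝ) ≤ (X : ℝ) ^ (1 / (r : ℝ)) → ¬ p ∣ N) :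
    N.primeFactorsList.length ≤ r + 1 := by
  have hr1 : (0 : ℝ) < r := by exact_mod_cast (by omega : 0 < r)
  refine rough_few _ h1 N (r + 1) hN ?_ h
  have e : ((X : ℝ) ^ (1 / (r : ℝ))) ^ r = X := by
    rw [← Real.rpow_natCast, ← Real.rpow_mul (Nat.cast_nonneg _), one_div, inv_mul_cancel₀ hr1.ne',
      Real.rpow_one]
  rw [pow_succ, e]
  have h2 : (N : ℝ) ≤ c * X := by exact_mod_cast hNX
  have h3 : (X : ℝ) * c ≤ X * (X : ℝ) ^ (1 / (r : ℝ)) := mul_le_mul_of_nonneg_left hc (Nat.cast_nonneg _)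
  linarith

lemma ev_large (r : ℕ) (hr : 1 ≤ r) (c : ℕ) : ∀ᶠ X : ℕ in atTop, ((c : ℕ) : ℝ) ≤ (X : ℝ) ^ (1 / (r : ℝ)) := by
  have hr1 : (0 : ℝ) < r := by exact_mod_cast (by omega : 0 < r)
  exact ((tendsto_rpow_atTop (by positivity)).comp tendsto_natCast_atTop_atTop).eventually_ge_atTop _

lemma c_ev {σ : ℤ} (hσ : σ = 1 ∨ σ = -1) (k : ℕ) :
    ∀ᶠ X : ℕ in atTop, System 1 ((X : ℝ) ^ (1 : ℝ)) ((X : ℝ) ^ (1 : ℝ)) (cs σ k) := by
  filter_upwards [eventually_ge_atTop (2 ^ k)] with X hX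
  apply c_sys hσ
  rw [Real.rpow_one]
  exact_mod_cast hX

end Pool.Agent.R935.JL
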