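import Pool.Agent.R935.JL.Sub
import Pool.Agent.R935.JL.Chain

set_option autoImplicit false

/-!
# The joint law for the elements sifted by one system and not by a longer one
-/

namespace Pool.Agent.R935.JL

open Polynomial Finset Filter
open Pool.Agent.R463.PS Pool.Agent.R463.PP

/-- the lower bound for the density -/
theorem low {k D : ℕ} (r : ℕ) (hr : 2 ≤ r) : ∃ v : ℝ, 0 < v ∧ ∀ᶠ X : ℕ in atTop,
    ∀ (H U : ℝ) (f : Fin k → ℤ[X]), System D H U f → v / Real.log X ^ (k * D + 1) ≤ V f X r := by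
  obtain ⟨v, hv, h⟩ := Pool.Agent.Y879.GL.V_low_log (k * D + 1) r hr
  refine ⟨v, hv, ?_⟩
  filter_upwards [h] with X hX H U f hf
  rw [Pool.Agent.R463.PS.V_eq]
  exact hX _ (Pool.Agent.Y879.GL.us_perB hf.us) (fun p hp => Pool.Agent.Y879.GL.us_adm hf.us p hp)

lemma logpow_rpow' (g : ℕ) (M θ : ℝ) (hM : 0 < M) (hθ : 0 < θ) :
    ∀ᶠ X : ℕ in atTop, M * Real.log X ^ g ≤ (X : ℝ) ^ θ :=
  Pool.Agent.TH464.PW.logpow_rpow g M θ hM hθ

lemma Cl_one {k : ℕ} (f : Fin k → ℤ[X]) : Cl f 1 = {0} := by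
  classical
  unfold Cl
  ext a
  rw [mem_filter, mem_range, mem_singleton]
  constructor
  · rintro ⟨h, _⟩
    omega
  · rintro rfl
    refine ⟨by norm_num, fun p hp hd => ?_⟩
    exact absurd (Nat.dvd_one.1 hd) hp.one_lt.ne'

/-- the number of the sifted integers -/
theorem count (k D : ℕ) (θ ε : ℝ) (hθ : 0 < θ) (hε : 0 < ε) :
    ∃ r₀ : ℕ, ∀ r : ℕ, r₀ ≤ r → ∀ C : ℝ, ∀ᶠ X : ℕ in atTop, ∀ f : Fin k → ℤ[X],
      System D ((X : ℝ) ^ (1 : ℝ)) ((X : ℝ) ^ (1 : ℝ)) f → V f X r ≤ C / Real.log X →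
      ∀ Z Y : ℕ, (X : ℝ) ^ θ ≤ Y →
        |((Set.ncard {n : ℕ | Z < n ∧ n ≤ Z + Y ∧ Sifted f X r n} : ℕ) : ℝ) - Y * V f X r| ≤
          ε * (Y * V f X r) := by
  obtain ⟨r₀, h⟩ := joint_full k D 1 0 le_rfl 1 1 θ one_pos one_pos hθ ε hε
  refine ⟨r₀, fun r hr C => ?_⟩
  filter_upwards [h r hr C] with X h1 f hf hV Z Y hY
  have h2 := (h1 f hf hV Z Y hY 0 (by rw [Cl_one]; exact mem_singleton_self 0) (fun _ => 0)
    (fun j hj => absurd hj (by omega))).2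
  rw [Cl_one, card_singleton, Nat.cast_one, one_pow, div_one] at h2
  have e : {n : ℕ | Z < n ∧ n ≤ Z + Y ∧ RunC (Sifted f X r) 1 0 0 (fun _ => 0) n} =
      {n : ℕ | Z < n ∧ n ≤ Z + Y ∧ Sifted f X r n} := by
    ext n
    simp only [Set.mem_ofPred_eq, RunC]
    constructor
    · rintro ⟨h1, h2, h3, _⟩
      exact ⟨h1, h2, h3⟩
    · rintro ⟨h1, h2, h3⟩
      exact ⟨h1, h2, h3, Nat.mod_one n, fun j hj => absurd hj (by omega)⟩
  rw [e] at h2
  exact h2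

/-- **The joint law for a system without a longer one.** -/
theorem exact_joint {k k' D : ℕ} (f : Fin k → ℤ[X]) (g : Fin k' → ℤ[X])
    (hf : ∀ᶠ X : ℕ in atTop, System D ((X : ℝ) ^ (1 : ℝ)) ((X : ℝ) ^ (1 : ℝ)) f)
    (hg : ∀ᶠ X : ℕ in atTop, System D ((X : ℝ) ^ (1 : ℝ)) ((X : ℝ) ^ (1 : ℝ)) g)
    (hVf : ∀ r : ℕ, 2 ≤ r → ∃ C : ℝ, 0 < C ∧ ∀ᶠ X : ℕ in atTop, V f X r ≤ C / Real.log X)
    (hVg : ∀ r : ℕ, 2 ≤ r → ∃ C : ℝ, 0 < C ∧ ∀ᶠ X : ℕ in atTop, V g X r ≤ C / Real.log X * V f X r)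
    (hsub : ∀ X r n : ℕ, Sifted g X r n → Sifted f X r n)
    (q K : ℕ) (hq : 1 ≤ q) (θ : ℝ) (hθ : 0 < θ) (ε : ℝ) (hε : 0 < ε) :
    ∃ r₀ : ℕ, 2 ≤ r₀ ∧ ∀ r : ℕ, r₀ ≤ r → ∀ᶠ X : ℕ in atTop, ∀ Z Y : ℕ, (X : ℝ) ^ θ ≤ Y →
      ∀ a ∈ Cl f q, ∀ b : ℕ → ℕ, (∀ j < K, b j ∈ Cl f q) →
        (∀ s t : ℕ → ℕ, (∀ j < K, s j ≤ t j) →
          |((Set.ncard {n : ℕ | Z < n ∧ n ≤ Z + Y ∧
              Run (fun m => Sifted f X r m ∧ ¬ Sifted g X r m) q K a b s t n} : ℕ) : ℝ) -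
            Y * V f X r / (Cl f q).card ^ (K + 1) *
              ∏ j ∈ range K, (Real.exp (-(V f X r * s j)) - Real.exp (-(V f X r * t j)))| ≤
            ε * (Y * V f X r)) ∧
        |((Set.ncard {n : ℕ | Z < n ∧ n ≤ Z + Y ∧
              RunC (fun m => Sifted f X r m ∧ ¬ Sifted g X r m) q K a b n} : ℕ) : ℝ) -
            Y * V f X r / (Cl f q).card ^ (K + 1)| ≤ ε * (Y * V f X r) := by
  obtain ⟨r1, h1⟩ := joint_full k D q K hq 1 1 θ one_pos one_pos hθ (ε / 2) (by positivity)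
  obtain ⟨r2, h2⟩ := count k D θ (1 / 2) hθ (by norm_num)
  obtain ⟨r3, h3⟩ := count k' D θ 1 hθ one_pos
  refine ⟨max (max r1 2) (max r2 r3), (le_max_right _ _).trans (le_max_left _ _), fun r hr => ?_⟩
  have hr1 : r1 ≤ r := (le_max_left _ _).trans ((le_max_left _ _).trans hr)
  have hr2' : 2 ≤ r := (le_max_right _ _).trans ((le_max_left _ _).trans hr)
  have hr2 : r2 ≤ r := (le_max_left _ _).trans ((le_max_right _ _).trans hr)
  have hr3 : r3 ≤ r := (le_max_right _ _).trans ((le_max_right _ _).trans hr)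
  obtain ⟨C, hC, hV⟩ := hVf r hr2'
  obtain ⟨C', hC', hV'⟩ := hVg r hr2'
  obtain ⟨v, hv, hlow⟩ := low (k := k) (D := D) r hr2'
  obtain ⟨M, hM⟩ : ∃ M : ℝ, M = 4 * ((K : ℝ) + 1) * ((K : ℝ) + 1) / (ε * v) := ⟨_, rfl⟩
  have hM0 : 0 < M := by rw [hM]; positivity
  have hlogX : Tendsto (fun X : ℕ => Real.log (X : ℝ)) atTop atTop :=
    Real.tendsto_log_atTop.comp tendsto_natCast_atTop_atTop
  filter_upwards [h1 r hr1 C, h2 r hr2 C, h3 r hr3 (C' * C), hf, hg, hV, hV', hlow,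
    logpow_rpow' (k * D + 1) M θ hM0 hθ, hlogX.eventually_ge_atTop 1,
    hlogX.eventually_ge_atTop (8 * (K + 1) * C' / ε)] with X h1 h2 h3 hf hg hV hV' hlow hM1 hl1 hl2
  intro Z Y hY a ha b hb
  have hlow' := hlow _ _ f hf
  have hl0 : 0 < Real.log (X : ℝ) := by linarith
  have hV0 : 0 < V f X r := lt_of_lt_of_le (by positivity) hlow'
  obtain ⟨W, hW⟩ : ∃ W, W = Y * V f X r := ⟨_, rfl⟩
  -- many sifted integers
  have hWbig : ((K : ℝ) + 1) * K ≤ ε / 4 * W := by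
    have h4 : M * Real.log (X : ℝ) ^ (k * D + 1) ≤ Y := hM1.trans hY
    have h5 : M * v ≤ W := by
      rw [hW]
      rw [div_le_iff₀ (by positivity)] at hlow'
      calc M * v ≤ M * (V f X r * Real.log (X : ℝ) ^ (k * D + 1)) :=
            mul_le_mul_of_nonneg_left hlow' hM0.le
        _ = (M * Real.log (X : ℝ) ^ (k * D + 1)) * V f X r := by ring
        _ ≤ Y * V f X r := mul_le_mul_of_nonneg_right h4 hV0.le
    have h6 : M * v = 4 * ((K : ℝ) + 1) * ((K : ℝ) + 1) / ε := by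
      rw [hM]
      field_simp
    rw [h6, div_le_iff₀ hε] at h5
    have hK : (0 : ℝ) ≤ K := Nat.cast_nonneg _
    nlinarith
  have hW0 : 0 < W := by
    rw [hW]
    have h4 : 0 < M * Real.log (X : ℝ) ^ (k * D + 1) := by positivity
    have h5 : (0 : ℝ) < Y := lt_of_lt_of_le h4 (hM1.trans hY)
    positivity
  -- infinitely many sifted integers
  have hS : ∀ n, ∃ m, n < m ∧ Sifted f X r m := by
    intro n
    have h4 := (abs_le.1 (h2 f hf hV n Y hY)).1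
    rw [← hW] at h4
    have h5 : (0 : ℝ) < ((Set.ncard {m : ℕ | n < m ∧ m ≤ n + Y ∧ Sifted f X r m} : ℕ) : ℝ) := by linarith
    have h6 : 0 < Set.ncard {m : ℕ | n < m ∧ m ≤ n + Y ∧ Sifted f X r m} := by exact_mod_cast h5
    obtain ⟨m, hm⟩ := Set.nonempty_of_ncard_ne_zero h6.ne'
    exact ⟨m, hm.1, hm.2.2⟩
  -- few elements of the smaller set
  have hVg0 : V g X r ≤ C' * C / Real.log X := by
    refine hV'.trans ?_
    have hone : V f X r ≤ C := hV.trans (div_le_self hC.le hl1)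
    calc C' / Real.log X * V f X r ≤ C' / Real.log X * C :=
          mul_le_mul_of_nonneg_left hone (by positivity)
      _ = C' * C / Real.log X := by ring
  have hfew : ((Set.ncard {n : ℕ | Z < n ∧ n ≤ Z + Y ∧ (Sifted f X r n ∧ Sifted g X r n)} : ℕ) : ℝ) ≤
      2 * (C' / Real.log X * W) := by
    have e : {n : ℕ | Z < n ∧ n ≤ Z + Y ∧ (Sifted f X r n ∧ Sifted g X r n)} =
        {n : ℕ | Z < n ∧ n ≤ Z + Y ∧ Sifted g X r n} := by
      ext n
      simp only [Set.mem_ofPred_eq]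
      constructor
      · rintro ⟨h1, h2, _, h3⟩
        exact ⟨h1, h2, h3⟩
      · rintro ⟨h1, h2, h3⟩
        exact ⟨h1, h2, hsub X r n h3, h3⟩
    rw [e]
    have h4 := (abs_le.1 (h3 g hg hVg0 Z Y hY)).2
    have h5 : (Y : ℝ) * V g X r ≤ C' / Real.log X * W := by
      rw [hW]
      calc (Y : ℝ) * V g X r ≤ Y * (C' / Real.log X * V f X r) :=
            mul_le_mul_of_nonneg_left hV' (Nat.cast_nonneg _)
        _ = _ := by ring
    linarith
  have herr : ((K : ℝ) + 1) * (((Set.ncard {n : ℕ | Z < n ∧ n ≤ Z + Y ∧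
      (Sifted f X r n ∧ Sifted g X r n)} : ℕ) : ℝ) + K) ≤ ε / 2 * W := by
    have h4 : ((K : ℝ) + 1) * (2 * (C' / Real.log X * W)) ≤ ε / 4 * W := by
      have h5 : 8 * ((K : ℝ) + 1) * C' ≤ ε * Real.log X := by
        rw [div_le_iff₀ hε] at hl2
        linarith
      have h6 : ((K : ℝ) + 1) * (2 * (C' / Real.log X)) ≤ ε / 4 := by
        have e : ((K : ℝ) + 1) * (2 * (C' / Real.log X)) = (8 * ((K : ℝ) + 1) * C') / (4 * Real.log X) := by
          field_simp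
          ring
        rw [e, div_le_iff₀ (by positivity)]
        linarith
      calc ((K : ℝ) + 1) * (2 * (C' / Real.log X * W)) = ((K : ℝ) + 1) * (2 * (C' / Real.log X)) * W := by ring
        _ ≤ ε / 4 * W := mul_le_mul_of_nonneg_right h6 hW0.le
    have h7 : ((K : ℝ) + 1) * (((Set.ncard {n : ℕ | Z < n ∧ n ≤ Z + Y ∧
        (Sifted f X r n ∧ Sifted g X r n)} : ℕ) : ℝ) + K) ≤
        ((K : ℝ) + 1) * (2 * (C' / Real.log X * W) + K) := by
      apply mul_le_mul_of_nonneg_left _ (by positivity)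
      linarith
    calc _ ≤ ((K : ℝ) + 1) * (2 * (C' / Real.log X * W) + K) := h7
      _ = ((K : ℝ) + 1) * (2 * (C' / Real.log X * W)) + ((K : ℝ) + 1) * K := by ring
      _ ≤ ε / 2 * W := by linarith
  obtain ⟨g1, g2⟩ := h1 f hf hV Z Y hY a ha b hb
  rw [← hW] at g2 ⊢
  refine ⟨fun s t hst => ?_, ?_⟩
  · have h5 := g1 s t hst
    rw [← hW] at h5
    have h6 := (run_diff hS (Sifted g X r) q K a b s t Z Y).trans herr
    refine (abs_sub_le _ _ _).trans ((add_le_add h6 h5).trans ?_)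
    linarith
  · have h6 := (runC_diff hS (Sifted g X r) q K a b Z Y).trans herr
    refine (abs_sub_le _ _ _).trans ((add_le_add h6 g2).trans ?_)
    linarith

end Pool.Agent.R935.JL
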