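import Pool.Agent.R463.PP11

set_option autoImplicit false

/-!
# Consecutive elements of a set without a sparse subset
-/

namespace Pool.Agent.R935.JL

open Finset Filter
open Pool.Agent.R463.PP

section
variable {S : ℕ → Prop} (hS : ∀ n, ∃ m, n < m ∧ S m)
include hS

lemma next_spec (n : ℕ) : n < next S n ∧ S (next S n) := by
  unfold next
  exact Nat.sInf_mem (hS n)

omit hS in
lemma next_le {n m : ℕ} (h : n < m) (hm : S m) : next S n ≤ m := Nat.sInf_le ⟨h, hm⟩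

lemma iter_S {n : ℕ} (hn : S n) (j : ℕ) : S ((next S)^[j] n) := by
  induction j with
  | zero => exact hn
  | succ j _ =>
    rw [Function.iterate_succ_apply']
    exact (next_spec hS _).2

lemma iter_lt {n n' : ℕ} (hn' : S n') (h : n < n') (j : ℕ) :
    (next S)^[j] n < (next S)^[j] n' := by
  induction j with
  | zero => exact h
  | succ j ih =>
    rw [Function.iterate_succ_apply', Function.iterate_succ_apply']
    exact (next_le ih (iter_S hS hn' j)).trans_lt (next_spec hS _).1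

lemma iter_inj {n n' : ℕ} (hn : S n) (hn' : S n') (j : ℕ)
    (h : (next S)^[j] n = (next S)^[j] n') : n = n' := by
  rcases lt_trichotomy n n' with h1 | h1 | h1
  · exact absurd h (iter_lt hS hn' h1 j).ne
  · exact h1
  · exact absurd h (iter_lt hS hn h1 j).ne'

omit hS in
lemma fin_le (M : ℕ) (P : ℕ → Prop) : {n : ℕ | n ≤ M ∧ P n}.Finite :=
  (Set.finite_Iic M).subset fun _ hn => hn.1

/-- at most `j` elements of `S` up to `M` have their `j`-th successor beyond `M` -/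
lemma last (M j : ℕ) : Set.ncard {n : ℕ | n ≤ M ∧ (S n ∧ M < (next S)^[j] n)} ≤ j := by
  induction j with
  | zero =>
    have : {n : ℕ | n ≤ M ∧ (S n ∧ M < (next S)^[0] n)} = ∅ := by
      ext n
      simp only [Set.mem_ofPred_eq, Function.iterate_zero, id, Set.mem_empty_iff_false, iff_false]
      omega
    rw [this, Set.ncard_empty]
  | succ j ih =>
    have hsub : {n : ℕ | n ≤ M ∧ (S n ∧ M < (next S)^[j + 1] n)} ⊆
        {n : ℕ | n ≤ M ∧ (S n ∧ M < (next S)^[j] n)} ∪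
        {n : ℕ | n ≤ M ∧ (S n ∧ (next S)^[j] n ≤ M ∧ M < (next S)^[j + 1] n)} := by
      rintro n ⟨h1, h2, h3⟩
      rcases Nat.lt_or_ge M ((next S)^[j] n) with h | h
      · exact Or.inl ⟨h1, h2, h⟩
      · exact Or.inr ⟨h1, h2, h, h3⟩
    refine (Set.ncard_le_ncard hsub ((fin_le M _).union (fin_le M _))).trans
      ((Set.ncard_union_le _ _).trans ?_)
    have h1 : Set.ncard {n : ℕ | n ≤ M ∧ (S n ∧ (next S)^[j] n ≤ M ∧ M < (next S)^[j + 1] n)} ≤ 1 := by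
      rw [Set.ncard_le_one (fin_le M _)]
      have key : ∀ x y : ℕ, S y → (next S)^[j] y ≤ M → M < (next S)^[j + 1] x → x < y → False := by
        intro x y hy h1 h2 hxy
        have h3 := iter_lt hS hy hxy j
        rw [Function.iterate_succ_apply'] at h2
        have h4 := next_le h3 (iter_S hS hy j)
        omega
      rintro x ⟨_, hx2, hx3, hx4⟩ y ⟨_, hy2, hy3, hy4⟩
      rcases lt_trichotomy x y with h | h | h
      · exact (key x y hy2 hy3 hx4 h).elim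
      · exact h
      · exact (key y x hx2 hx3 hy4 h).elim
    omega

/-- the elements whose `j`-th successor lies in a subset -/
lemma succ_in (T : ℕ → Prop) (Z Y j : ℕ) :
    Set.ncard {n : ℕ | n ≤ Z + Y ∧ (Z < n ∧ S n ∧ T ((next S)^[j] n))} ≤
      Set.ncard {n : ℕ | n ≤ Z + Y ∧ (Z < n ∧ S n ∧ T n)} + j := by
  have hsub : {n : ℕ | n ≤ Z + Y ∧ (Z < n ∧ S n ∧ T ((next S)^[j] n))} ⊆
      {n : ℕ | n ≤ Z + Y ∧ (Z < n ∧ S n ∧ T ((next S)^[j] n) ∧ (next S)^[j] n ≤ Z + Y)} ∪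
      {n : ℕ | n ≤ Z + Y ∧ (S n ∧ Z + Y < (next S)^[j] n)} := by
    rintro n ⟨h1, h2, h3, h4⟩
    rcases Nat.lt_or_ge (Z + Y) ((next S)^[j] n) with h | h
    · exact Or.inr ⟨h1, h3, h⟩
    · exact Or.inl ⟨h1, h2, h3, h4, h⟩
  refine (Set.ncard_le_ncard hsub ((fin_le _ _).union (fin_le _ _))).trans
    ((Set.ncard_union_le _ _).trans (add_le_add ?_ (last hS (Z + Y) j)))
  apply Set.ncard_le_ncard_of_injOn (fun n => (next S)^[j] n) _ _ (fin_le _ _)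
  · rintro n ⟨h1, h2, h3, h4, h5⟩
    refine ⟨h5, ?_, iter_S hS h3 j, h4⟩
    have : ∀ i, n ≤ (next S)^[i] n := by
      intro i
      induction i with
      | zero => exact le_rfl
      | succ i ih =>
        rw [Function.iterate_succ_apply']
        exact ih.trans (next_spec hS _).1.le
    exact h2.trans_le (this j)
  · rintro n ⟨_, _, h3, _⟩ n' ⟨_, _, h3', _⟩ h
    exact iter_inj hS h3 h3' j h

/-- the successors in `S` and in `S` without a subset -/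
lemma next_sub {T : ℕ → Prop} {n : ℕ} (h : ¬ T (next S n)) :
    next (fun m => S m ∧ ¬ T m) n = next S n := by
  apply le_antisymm
  · exact Nat.sInf_le ⟨(next_spec hS n).1, (next_spec hS n).2, h⟩
  · have hne : ({m | n < m ∧ (S m ∧ ¬ T m)} : Set ℕ).Nonempty :=
      ⟨next S n, (next_spec hS n).1, (next_spec hS n).2, h⟩
    have h1 := Nat.sInf_mem hne
    exact next_le h1.1 h1.2.1

lemma iter_sub {T : ℕ → Prop} {n K : ℕ} (h : ∀ j ≤ K, ¬ T ((next S)^[j] n)) :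
    ∀ j ≤ K, (next (fun m => S m ∧ ¬ T m))^[j] n = (next S)^[j] n := by
  intro j
  induction j with
  | zero => intro _; rfl
  | succ j ih =>
    intro hj
    rw [Function.iterate_succ_apply', Function.iterate_succ_apply', ih (by omega)]
    apply next_sub hS
    rw [← Function.iterate_succ_apply' (next S)]
    exact h (j + 1) hj

lemma run_sub {T : ℕ → Prop} {n K : ℕ} (q a : ℕ) (b s t : ℕ → ℕ)
    (h : ∀ j ≤ K, ¬ T ((next S)^[j] n)) :
    Run (fun m => S m ∧ ¬ T m) q K a b s t n ↔ Run S q K a b s t n := by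
  unfold Run
  have h0 : ¬ T n := h 0 (Nat.zero_le _)
  have h1 : (fun m => S m ∧ ¬ T m) n ↔ S n := ⟨fun h => h.1, fun h => ⟨h, h0⟩⟩
  rw [h1]
  apply and_congr_right
  intro _
  apply and_congr_right
  intro _
  apply forall_congr'
  intro j
  apply imp_congr_right
  intro hj
  rw [iter_sub hS h (j + 1) hj, iter_sub hS h j hj.le]

lemma runC_sub {T : ℕ → Prop} {n K : ℕ} (q a : ℕ) (b : ℕ → ℕ)
    (h : ∀ j ≤ K, ¬ T ((next S)^[j] n)) :
    RunC (fun m => S m ∧ ¬ T m) q K a b n ↔ RunC S q K a b n := by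
  unfold RunC
  have h0 : ¬ T n := h 0 (Nat.zero_le _)
  have h1 : (fun m => S m ∧ ¬ T m) n ↔ S n := ⟨fun h => h.1, fun h => ⟨h, h0⟩⟩
  rw [h1]
  apply and_congr_right
  intro _
  apply and_congr_right
  intro _
  apply forall_congr'
  intro j
  apply imp_congr_right
  intro hj
  rw [iter_sub hS h (j + 1) hj]

/-- the exceptional elements -/
lemma bad_le (T : ℕ → Prop) (Z Y K : ℕ) :
    Set.ncard {n : ℕ | n ≤ Z + Y ∧ (Z < n ∧ S n ∧ ∃ j ≤ K, T ((next S)^[j] n))} ≤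
      (K + 1) * (Set.ncard {n : ℕ | n ≤ Z + Y ∧ (Z < n ∧ S n ∧ T n)} + K) := by
  induction K with
  | zero =>
    rw [zero_add, one_mul, add_zero]
    apply Set.ncard_le_ncard _ (fin_le _ _)
    rintro n ⟨h1, h2, h3, j, hj, h4⟩
    have : j = 0 := by omega
    subst this
    exact ⟨h1, h2, h3, h4⟩
  | succ K ih =>
    have hsub : {n : ℕ | n ≤ Z + Y ∧ (Z < n ∧ S n ∧ ∃ j ≤ K + 1, T ((next S)^[j] n))} ⊆
        {n : ℕ | n ≤ Z + Y ∧ (Z < n ∧ S n ∧ ∃ j ≤ K, T ((next S)^[j] n))} ∪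
        {n : ℕ | n ≤ Z + Y ∧ (Z < n ∧ S n ∧ T ((next S)^[K + 1] n))} := by
      rintro n ⟨h1, h2, h3, j, hj, h4⟩
      rcases Nat.lt_or_ge K j with h | h
      · have : j = K + 1 := by omega
        subst this
        exact Or.inr ⟨h1, h2, h3, h4⟩
      · exact Or.inl ⟨h1, h2, h3, j, h, h4⟩
    refine (Set.ncard_le_ncard hsub ((fin_le _ _).union (fin_le _ _))).trans
      ((Set.ncard_union_le _ _).trans ((add_le_add ih (succ_in hS T Z Y (K + 1))).trans ?_))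
    obtain ⟨N, hN⟩ : ∃ N, N = Set.ncard {n : ℕ | n ≤ Z + Y ∧ (Z < n ∧ S n ∧ T n)} := ⟨_, rfl⟩
    rw [← hN]
    have : (K + 1 + 1) * (N + (K + 1)) = (K + 1) * (N + K) + (K + 1) + (N + (K + 1)) := by ring
    omega

lemma diff_le (P P' : ℕ → Prop) (T : ℕ → Prop) (Z Y K : ℕ)
    (hP : ∀ n, P n → S n) (hP' : ∀ n, P' n → S n)
    (h : ∀ n, (∀ j ≤ K, ¬ T ((next S)^[j] n)) → (P' n ↔ P n)) :
    |((Set.ncard {n : ℕ | Z < n ∧ n ≤ Z + Y ∧ P' n} : ℕ) : ℝ) -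
      ((Set.ncard {n : ℕ | Z < n ∧ n ≤ Z + Y ∧ P n} : ℕ) : ℝ)| ≤
      (K + 1) * (((Set.ncard {n : ℕ | Z < n ∧ n ≤ Z + Y ∧ (S n ∧ T n)} : ℕ) : ℝ) + K) := by
  classical
  have hfin : ∀ R : ℕ → Prop, {n : ℕ | Z < n ∧ n ≤ Z + Y ∧ R n}.Finite := fun R =>
    (Set.finite_Iic (Z + Y)).subset fun _ hn => hn.2.1
  have e1 : {n : ℕ | Z < n ∧ n ≤ Z + Y ∧ (S n ∧ T n)} = {n : ℕ | n ≤ Z + Y ∧ (Z < n ∧ S n ∧ T n)} := by
    ext n
    simp only [Set.mem_ofPred_eq]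
    tauto
  have hb := bad_le hS T Z Y K
  rw [← e1] at hb
  have key : ∀ R R' : ℕ → Prop, (∀ n, R' n → S n) →
      (∀ n, (∀ j ≤ K, ¬ T ((next S)^[j] n)) → (R' n ↔ R n)) →
      Set.ncard {n : ℕ | Z < n ∧ n ≤ Z + Y ∧ R' n} ≤ Set.ncard {n : ℕ | Z < n ∧ n ≤ Z + Y ∧ R n} +
        Set.ncard {n : ℕ | n ≤ Z + Y ∧ (Z < n ∧ S n ∧ ∃ j ≤ K, T ((next S)^[j] n))} := by
    intro R R' hR' hRR
    refine (Set.ncard_le_ncard (t := {n : ℕ | Z < n ∧ n ≤ Z + Y ∧ R n} ∪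
      {n : ℕ | n ≤ Z + Y ∧ (Z < n ∧ S n ∧ ∃ j ≤ K, T ((next S)^[j] n))}) ?_
      ((hfin _).union (fin_le _ _))).trans (Set.ncard_union_le _ _)
    rintro n ⟨h1, h2, h3⟩
    by_cases hn : ∃ j ≤ K, T ((next S)^[j] n)
    · exact Or.inr ⟨h2, h1, hR' n h3, hn⟩
    · left
      push Not at hn
      exact ⟨h1, h2, (hRR n hn).1 h3⟩
  have h1 := key P P' hP' h
  have h2 := key P' P hP (fun n hn => (h n hn).symm)
  have h3 : ((Set.ncard {n : ℕ | Z < n ∧ n ≤ Z + Y ∧ P' n} : ℕ) : ℝ) ≤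
      ((Set.ncard {n : ℕ | Z < n ∧ n ≤ Z + Y ∧ P n} : ℕ) : ℝ) +
      (K + 1) * (((Set.ncard {n : ℕ | Z < n ∧ n ≤ Z + Y ∧ (S n ∧ T n)} : ℕ) : ℝ) + K) := by
    exact_mod_cast h1.trans (Nat.add_le_add_left hb _)
  have h4 : ((Set.ncard {n : ℕ | Z < n ∧ n ≤ Z + Y ∧ P n} : ℕ) : ℝ) ≤
      ((Set.ncard {n : ℕ | Z < n ∧ n ≤ Z + Y ∧ P' n} : ℕ) : ℝ) +
      (K + 1) * (((Set.ncard {n : ℕ | Z < n ∧ n ≤ Z + Y ∧ (S n ∧ T n)} : ℕ) : ℝ) + K) := by
    exact_mod_cast h2.trans (Nat.add_le_add_left hb _)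
  rw [abs_le]
  constructor <;> linarith

/-- the runs of `S` without the elements of `T` -/
theorem run_diff (T : ℕ → Prop) (q K a : ℕ) (b s t : ℕ → ℕ) (Z Y : ℕ) :
    |((Set.ncard {n : ℕ | Z < n ∧ n ≤ Z + Y ∧ Run (fun m => S m ∧ ¬ T m) q K a b s t n} : ℕ) : ℝ) -
      ((Set.ncard {n : ℕ | Z < n ∧ n ≤ Z + Y ∧ Run S q K a b s t n} : ℕ) : ℝ)| ≤
      (K + 1) * (((Set.ncard {n : ℕ | Z < n ∧ n ≤ Z + Y ∧ (S n ∧ T n)} : ℕ) : ℝ) + K) :=
  diff_le hS _ _ T Z Y K (fun _ h => h.1) (fun _ h => h.1.1) (fun _ h => run_sub hS q a b s t h)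

theorem runC_diff (T : ℕ → Prop) (q K a : ℕ) (b : ℕ → ℕ) (Z Y : ℕ) :
    |((Set.ncard {n : ℕ | Z < n ∧ n ≤ Z + Y ∧ RunC (fun m => S m ∧ ¬ T m) q K a b n} : ℕ) : ℝ) -
      ((Set.ncard {n : ℕ | Z < n ∧ n ≤ Z + Y ∧ RunC S q K a b n} : ℕ) : ℝ)| ≤
      (K + 1) * (((Set.ncard {n : ℕ | Z < n ∧ n ≤ Z + Y ∧ (S n ∧ T n)} : ℕ) : ℝ) + K) :=
  diff_le hS _ _ T Z Y K (fun _ h => h.1) (fun _ h => h.1.1) (fun _ h => runC_sub hS q a b h)

end

end Pool.Agent.R935.JL
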